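import Pool.Agent.TH942.ES.Frob

/-!
# The formula of Birch and Swinnerton-Dyer over number fields as one limit formula for numbers of points

Let `K` be a number field, `E : y² = x³ + a x + b` an elliptic curve, `a, b ∈ 𝓞 K`, `r` the rank of `E(K)`,
`Reg` the regulator (for the pairing with `⟨P, P⟩ = lim h_K(x(2^k P)) / 4^k`), `T` the number of `K`-rational
torsion points, `V_r` the volume of the unit ball of `ℝ^r`,
`L(s) = ∏ (1 - (q_v - N_v) q_v^{-s} + q_v^{1-2s})⁻¹`, `Re s > 3/2`, the incomplete `L`-series (the product over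
the primes `v ∤ 6 (4 a³ + 27 b²)`; `q_v` is the norm of `v` and `N_v` the number of affine points modulo `v`).

Let `a_v(k) = α_v^k + β_v^k = q_v^k + 1 - #E(k_{v,k})` (`k_{v,k}` the extension of degree `k` of the residue field)
be the power sums of the eigenvalues of Frobenius, so that
`log L(s) = ∑ a_v(k) / (k q_v^{ks})`. For `ρ > 1` let
`w_ρ(u) = (2π)⁻¹ ∫ Re (exp (z - u z^(1/ρ)) / z) dt`, `z = 1 + i t` (the probability that a stable subordinator of
index `1/ρ` has not passed `1` at the time `u`), and for `ρ' > ρ`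

`Λ_ρ(X) = exp ∑_{q_v^k ≤ exp ((log X)^ρ')} a_v(k) / (k q_v^k) · w_ρ(log q_v^k / log X)`,

the partial Euler product of `L` at `s = 1` with random cut-off. Finally let `N(X)` be the number of points of
`E(K)` with `H_K(x(P)) ≤ X`.

It is shown, for every number field `K` and every elliptic curve, WITHOUT any assumption on the continuation of
`L`, for every `ρ₀ ≥ 1` and `B > 0`: the limit formula

`N(X)² Λ_ρ(X) → V_r² B e^{-rγ/ρ}`    for all `ρ > ρ₀`    (`γ` is Euler's constant)

holds if and only if `L` has a holomorphic continuation without zeros to the sector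
`|arg (s - 1)| < π / (2ρ₀)` and `L(s) / (s - 1)^r → B Reg / T²` as `s → 1` in every smaller sector.

For `ρ₀ = 1` the sector is the half plane `Re s > 1`. So, with
`B = Ω #Ш ∏ c_v / √|Δ_K| · ∏_{v ∣ 6 (4a³ + 27b²)} E_v(1)` (`E_v(s)` the inverse of the omitted Euler factor), the
conjecture of Birch and Swinnerton-Dyer for `E/K` (continuation, order and leading coefficient) together with
the Riemann hypothesis for `L` (or with a zero-free sector) is EQUIVALENT to one limit formula for numbers of
points, rational over `K` and over the residue fields, in which `L`, the regulator and torsion do not occur. For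
`K ≠ ℚ` the conjecture of Birch and Swinnerton-Dyer includes the continuation of `L`, which is unknown in general;
here it is a consequence of the limit formula.

Proof. With `y = (log X)^ρ`, `α = 1/ρ`, `log Λ_ρ(X)` is up to `o(1)` the integral
`(2πi)⁻¹ ∫ e^{zy} log L(1 + z^α) dz/z`. If the formula holds, then `log L(1 + z^α) / z` is the Laplace transform of
`log Λ_ρ`, hence holomorphic for `Re z > 0`, and an Abelian theorem gives its asymptotic behaviour in angles.
Conversely, the line of integration is moved to `Re z = 1/y` (after an integration by parts) and the theorem of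
dominated convergence is applied. The number of points is given by the theorems of Mordell-Weil and Néron.
-/

set_option autoImplicit false

namespace Pool.Agent.Results.MP_9ab903_nt.LimitFormula

open Filter Topology NumberField IsDedekindDomain
open Pool.Agent.TH942.SL (Sect)
open Pool.Agent.TH942.ES

section definitions

variable {K : Type} [Field K] [NumberField K]

/-- The group of `K`-rational points of `y² = x³ + a x + b`. -/
abbrev Pts (a b : 𝓞 K) : Type := TH942.SPt (a : K) (b : K)

open Classical in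
/-- The rank. -/
noncomputable def rank (a b : 𝓞 K) : ℕ := Module.finrank ℤ (Pts a b)

/-- The logarithmic height relative to `K` of the `x`-coordinate (`0` at infinity). -/
noncomputable def ht {a b : 𝓞 K} : Pts a b → ℝ
  | .zero => 0
  | .some x _ _ => Real.log (Height.mulHeight₁ x)

open Classical in
/-- The canonical height `lim h(2^k P) / 4^k`. -/
noncomputable def canHt {a b : 𝓞 K} (P : Pts a b) : ℝ :=
  limUnder atTop (fun k : ℕ => ht ((2 ^ k : ℕ) • P) / 4 ^ k)

open Classical in
/-- `P_1, …, P_r` is a basis of the group of rational points modulo torsion: every point is, in a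
unique way, an integral combination of the `P_i` plus a point of finite order. -/
def IsMWBasis {a b : 𝓞 K} {r : ℕ} (g : Fin r → Pts a b) : Prop :=
  ∀ P : Pts a b, ∃! n : Fin r → ℤ, IsOfFinAddOrder (P - ∑ i, n i • g i)

open Classical in
/-- The regulator: the determinant of the pairing `⟨P, Q⟩ = (ĥ(P + Q) - ĥ(P) - ĥ(Q)) / 2`. -/
noncomputable def regulator {a b : 𝓞 K} {r : ℕ} (g : Fin r → Pts a b) : ℝ :=
  Matrix.det (Matrix.of fun i j => (canHt (g i + g j) - canHt (g i) - canHt (g j)) / 2)

open Classical in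
/-- The number of torsion points. -/
noncomputable def tors (a b : 𝓞 K) : ℕ := Nat.card {t : Pts a b // IsOfFinAddOrder t}

/-- `N(X)`: the number of points with `h(P) ≤ log X`. -/
noncomputable def pointsUpTo (a b : 𝓞 K) (X : ℝ) : ℕ := Nat.card {P : Pts a b // ht P ≤ Real.log X}

/-- The volume of the unit ball of `ℝ^r`. -/
noncomputable def ballVol (r : ℕ) : ℝ := √Real.pi ^ r / Real.Gamma (r / 2 + 1)

/-- The norm `q_v` of a prime. -/
noncomputable def q (v : HeightOneSpectrum (𝓞 K)) : ℕ := Ideal.absNorm v.asIdeal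

/-- The primes which do not divide `6 (4 a³ + 27 b²)`. -/
def Good (a b : 𝓞 K) (v : HeightOneSpectrum (𝓞 K)) : Prop :=
  6 * (4 * a ^ 3 + 27 * b ^ 2) ∉ v.asIdeal

/-- The number `N_v` of affine points modulo `v`. -/
noncomputable def pointCount (a b : 𝓞 K) (v : HeightOneSpectrum (𝓞 K)) : ℕ :=
  Nat.card {P : (𝓞 K ⧸ v.asIdeal) × (𝓞 K ⧸ v.asIdeal) //
    P.2 ^ 2 = P.1 ^ 3 + Ideal.Quotient.mk v.asIdeal a * P.1 + Ideal.Quotient.mk v.asIdeal b}

/-- The incomplete `L`-series, the product of `(1 - (q_v - N_v) q_v^{-s} + q_v^{1 - 2 s})⁻¹`; it is used for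
`Re s > 3/2`, where the product converges absolutely. -/
noncomputable def L (a b : 𝓞 K) (s : ℂ) : ℂ :=
  ∏' v : {v // Good a b v},
    (1 - ((q v.1 : ℂ) - pointCount a b v.1) * (q v.1 : ℂ) ^ (-s) + (q v.1 : ℂ) ^ (1 - 2 * s))⁻¹

/-- The power sums `a_v(k)` of the eigenvalues of Frobenius: `a_v(0) = 2`, `a_v(1) = q_v - N_v`,
`a_v(k+2) = a_v(1) a_v(k+1) - q_v a_v(k)`. -/
noncomputable def frob (a b : 𝓞 K) (v : HeightOneSpectrum (𝓞 K)) : ℕ → ℝ
  | 0 => 2
  | 1 => q v - pointCount a b v
  | (k + 2) => (q v - pointCount a b v) * frob a b v (k + 1) - q v * frob a b v k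

/-- The weight `w_ρ(u) = (2π)⁻¹ ∫ Re (exp (z - u z^(1/ρ)) / z) dt`, `z = 1 + i t`. -/
noncomputable def weight (ρ u : ℝ) : ℝ :=
  (2 * Real.pi)⁻¹ * ∫ t : ℝ, (Complex.exp ((1 + t * Complex.I) -
    u * (1 + t * Complex.I) ^ ((ρ⁻¹ : ℝ) : ℂ)) / (1 + t * Complex.I)).re

/-- `Λ_ρ(X)`: the exponential of the sum over the powers `v^k`, `k = j + 1 ≥ 1`, of good primes with
`q_v^k ≤ exp ((log X)^ρ')` of the numbers `a_v(k) / (k q_v^k) · w_ρ(k log q_v / log X)`. -/
noncomputable def partialProduct (a b : 𝓞 K) (ρ ρ' X : ℝ) : ℝ :=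
  Real.exp (∑ᶠ (p : {v // Good a b v} × ℕ)
    (_ : (q p.1.1 : ℝ) ^ (p.2 + 1) ≤ Real.exp (Real.log X ^ ρ')),
    weight ρ (((p.2 : ℝ) + 1) * Real.log (q p.1.1) / Real.log X) *
      (frob a b p.1.1 (p.2 + 1) / (((p.2 : ℝ) + 1) * (q p.1.1 : ℝ) ^ (p.2 + 1))))

/-- The sector `|arg (s - 1)| < π / (2ρ)`; the half plane `Re s > 1` if `ρ = 1`. -/
def Sector (ρ : ℝ) : Set ℂ := {s | s ≠ 1 ∧ |(s - 1).arg| < Real.pi / (2 * ρ)}

/-- `G` is holomorphic and has no zeros on the union of `U` and the half plane `Re s > 3/2`, where it is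
equal to `L`. -/
def ZeroFreeContinuation (a b : 𝓞 K) (U : Set ℂ) (G : ℂ → ℂ) : Prop :=
  (∀ s : ℂ, s ∈ U ∨ 3 / 2 < s.re → DifferentiableAt ℂ G s ∧ G s ≠ 0) ∧
    ∀ s : ℂ, 3 / 2 < s.re → G s = L a b s

end definitions

section proofs

variable {K : Type} [Field K] [NumberField K] {a b : 𝓞 K}

theorem ht_eq (P : Pts a b) : ht P = TH942.sht (K := K) (a := (a : K)) (b := (b : K)) P := by
  cases P with
  | zero => exact TH942.sht_zero.symm
  | some x y h => exact (sht_someK h).symm

theorem L_eq (s : ℂ) : L a b s = LV a b s := rfl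

theorem frob_eq (a b : 𝓞 K) (v : HeightOneSpectrum (𝓞 K)) (k : ℕ) :
    frob a b v k = frobP ((q v : ℝ) - pointCount a b v) (q v) k ∧
      frob a b v (k + 1) = frobP ((q v : ℝ) - pointCount a b v) (q v) (k + 1) := by
  induction k with
  | zero => exact ⟨rfl, rfl⟩
  | succ k ih =>
    refine ⟨ih.2, ?_⟩
    change (q v - pointCount a b v) * frob a b v (k + 1) - q v * frob a b v k = _
    rw [ih.1, ih.2]
    rfl

theorem partialProduct_eq (a b : 𝓞 K) (ρ ρ' X : ℝ) :
    partialProduct a b ρ ρ' X = Real.exp (StE (nV a b) (alV a b) ρ ρ' X) := by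
  unfold partialProduct StE
  congr 1
  refine finsum_congr fun p => ?_
  refine finsum_congr fun _ => ?_
  have e1 : cP (nV a b) (alV a b) p = _ := cP_eq a b p
  rw [e1, (frob_eq a b p.1.1 (p.2 + 1)).1]
  rfl

theorem sector_eq (ρ : ℝ) : Sector ρ = {s : ℂ | s - 1 ∈ Sect ρ} := by
  ext s
  simp only [Sector, Sect, Set.mem_ofPred_eq, ne_eq, sub_eq_zero]

/-- translation of the limit at the vertex -/
theorem vertex (ρ : ℝ) (G : ℂ → ℂ) (r : ℕ) (l : ℂ) :
    Tendsto (fun s => G s / (s - 1) ^ r) (𝓝[Sector ρ] 1) (𝓝 l) ↔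
      Tendsto (fun s => G (1 + s) / s ^ r) (𝓝[Sect ρ] 0) (𝓝 l) := by
  constructor
  · intro h
    have h1 : Tendsto (fun s : ℂ => 1 + s) (𝓝[Sect ρ] 0) (𝓝[Sector ρ] 1) := by
      refine tendsto_nhdsWithin_of_tendsto_nhds_of_eventually_within _ ?_ ?_
      · have : Tendsto (fun s : ℂ => 1 + s) (𝓝 0) (𝓝 (1 + 0)) :=
          (continuous_const.add continuous_id).tendsto 0
        rw [add_zero] at this
        exact this.mono_left nhdsWithin_le_nhds
      · filter_upwards [self_mem_nhdsWithin] with s hs
        rw [sector_eq, Set.mem_ofPred_eq, add_sub_cancel_left]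
        exact hs
    refine (h.comp h1).congr fun s => ?_
    simp only [Function.comp_apply, add_sub_cancel_left]
  · intro h
    have h1 : Tendsto (fun s : ℂ => s - 1) (𝓝[Sector ρ] 1) (𝓝[Sect ρ] 0) := by
      refine tendsto_nhdsWithin_of_tendsto_nhds_of_eventually_within _ ?_ ?_
      · have : Tendsto (fun s : ℂ => s - 1) (𝓝 1) (𝓝 (1 - 1)) :=
          (continuous_id.sub continuous_const).tendsto 1
        rw [sub_self] at this
        exact this.mono_left nhdsWithin_le_nhds
      · filter_upwards [self_mem_nhdsWithin] with s hs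
        rw [sector_eq, Set.mem_ofPred_eq] at hs
        exact hs
    refine (h.comp h1).congr fun s => ?_
    simp only [Function.comp_apply, add_sub_cancel]

/-- **the limit formula for the partial products** -/
theorem product_equiv (a b : 𝓞 K) {ρ₀ : ℝ} (hρ₀ : 1 ≤ ρ₀) (r : ℕ) {A : ℝ} (hA : 0 < A) :
    (∀ ρ ρ' : ℝ, ρ₀ < ρ → ρ < ρ' →
      Tendsto (fun X : ℝ => partialProduct a b ρ ρ' X * Real.log X ^ r) atTop
        (𝓝 (A * Real.exp (-(r * Real.eulerMascheroniConstant / ρ))))) ↔
    ∃ G : ℂ → ℂ, ZeroFreeContinuation a b (Sector ρ₀) G ∧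
      ∀ ρ : ℝ, ρ₀ < ρ → Tendsto (fun s => G s / (s - 1) ^ r) (𝓝[Sector ρ] 1) (𝓝 (A : ℂ)) := by
  have key := (sysV a b).star_equiv (zv_real a b) hρ₀ r hA
  have h1 : (∀ ρ ρ' : ℝ, ρ₀ < ρ → ρ < ρ' →
      Tendsto (fun X : ℝ => partialProduct a b ρ ρ' X * Real.log X ^ r) atTop
        (𝓝 (A * Real.exp (-(r * Real.eulerMascheroniConstant / ρ))))) ↔
    (∀ ρ ρ' : ℝ, ρ₀ < ρ → ρ < ρ' →
      Tendsto (fun Y : ℝ => StE (nV a b) (alV a b) ρ ρ' Y + r * Real.log (Real.log Y)) atTop
        (𝓝 (Real.log A - r * Real.eulerMascheroniConstant / ρ))) := by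
    refine forall_congr' fun ρ => forall_congr' fun ρ' => forall_congr' fun _ =>
      forall_congr' fun _ => ?_
    have e1 : ∀ᶠ X : ℝ in atTop, partialProduct a b ρ ρ' X * Real.log X ^ r =
        Real.exp (StE (nV a b) (alV a b) ρ ρ' X + r * Real.log (Real.log X)) := by
      filter_upwards [eventually_gt_atTop 1] with X hX
      have hl := Real.log_pos hX
      rw [partialProduct_eq, Real.exp_add, Real.exp_nat_mul, Real.exp_log hl]
    have e2 : A * Real.exp (-(r * Real.eulerMascheroniConstant / ρ)) =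
        Real.exp (Real.log A - r * Real.eulerMascheroniConstant / ρ) := by
      rw [sub_eq_add_neg, Real.exp_add, Real.exp_log hA]
    rw [e2]
    constructor
    · intro h
      have h2 := (h.log (Real.exp_ne_zero _))
      rw [Real.log_exp] at h2
      refine h2.congr' ?_
      filter_upwards [e1] with X hX
      rw [hX, Real.log_exp]
    · intro h
      refine ((Real.continuous_exp.tendsto _).comp h).congr' ?_
      filter_upwards [e1] with X hX
      rw [hX]
      rfl
  rw [h1, key]
  constructor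
  · rintro ⟨G, hG1, hG2, hG3⟩
    refine ⟨fun s => G (s - 1), ⟨fun s hs => ?_, fun s hs => ?_⟩, fun ρ hρ => ?_⟩
    · obtain ⟨e1, e2⟩ := hG1 (s - 1) (by
        rcases hs with h | h
        · left
          rw [sector_eq] at h
          exact h
        · right
          rw [Complex.sub_re, Complex.one_re]
          linarith)
      exact ⟨DifferentiableAt.comp (f := fun s : ℂ => s - 1) s e1 (by fun_prop), e2⟩
    · simp only
      rw [hG2 _ (by rw [Complex.sub_re, Complex.one_re]; linarith), ← LV_eq, L_eq, add_sub_cancel]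
    · rw [vertex]
      simpa only [add_sub_cancel_left] using hG3 ρ hρ
  · rintro ⟨G, ⟨hG1, hG2⟩, hG3⟩
    refine ⟨fun s => G (1 + s), fun s hs => ?_, fun s hs => ?_, fun ρ hρ => ?_⟩
    · obtain ⟨e1, e2⟩ := hG1 (1 + s) (by
        rcases hs with h | h
        · left
          rw [sector_eq, Set.mem_ofPred_eq, add_sub_cancel_left]
          exact h
        · right
          rw [Complex.add_re, Complex.one_re]
          linarith)
      exact ⟨DifferentiableAt.comp (f := fun s : ℂ => 1 + s) s e1 (by fun_prop), e2⟩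
    · simp only
      rw [hG2 _ (by rw [Complex.add_re, Complex.one_re]; linarith), L_eq, LV_eq]
    · exact (vertex ρ G r A).1 (hG3 ρ hρ)

end proofs

/-- **The conjecture of Birch and Swinnerton-Dyer over number fields as a limit formula for numbers of
points.** -/
theorem result (K : Type) [Field K] [NumberField K] (a b : 𝓞 K)
    (hΔ : 4 * a ^ 3 + 27 * b ^ 2 ≠ 0) :
    (∃ g : Fin (rank a b) → Pts a b, IsMWBasis g) ∧
    ∀ g : Fin (rank a b) → Pts a b, IsMWBasis g → 0 < regulator g ∧
      ∀ ρ₀ B : ℝ, 1 ≤ ρ₀ → 0 < B →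
        ((∀ ρ ρ' : ℝ, ρ₀ < ρ → ρ < ρ' →
          Tendsto (fun X : ℝ => (pointsUpTo a b X : ℝ) ^ 2 * partialProduct a b ρ ρ' X) atTop
            (𝓝 (ballVol (rank a b) ^ 2 * B *
              Real.exp (-(rank a b * Real.eulerMascheroniConstant / ρ))))) ↔
        ∃ G : ℂ → ℂ, ZeroFreeContinuation a b (Sector ρ₀) G ∧
          ∀ ρ : ℝ, ρ₀ < ρ → Tendsto (fun s => G s / (s - 1) ^ rank a b) (𝓝[Sector ρ] 1)
            (𝓝 ((B * regulator g / tors a b ^ 2 : ℝ) : ℂ))) := by
  classical
  have hD : 4 * (a : K) ^ 3 + 27 * (b : K) ^ 2 ≠ 0 := by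
    intro h0
    apply hΔ
    apply FaithfulSMul.algebraMap_injective (𝓞 K) K
    rw [map_zero, map_add, map_mul, map_mul, map_pow, map_pow, map_ofNat, map_ofNat]
    exact h0
  obtain ⟨Q, C, hq0, hq, hqh, hqlim, hcount⟩ := TH942.neron hD
  have hfin : ∀ B : ℝ, {P : Pts a b | ht P ≤ B}.Finite := by
    intro B
    simp only [ht_eq]
    exact TH942.sfinite_ht B
  have hcan : ∀ P : Pts a b, canHt P = Q P := by
    intro P
    unfold canHt
    apply Tendsto.limUnder_eq
    have := hqlim P
    simpa only [← ht_eq] using this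
  set r := rank a b with hr
  -- a basis
  obtain ⟨r', g', hg'⟩ := TH942.exists_basis (TH942.sfg hD)
  have hr' : r = r' := by
    have h1 := TH942.card_basis hg'
    rw [Fintype.card_fin] at h1
    exact h1
  have hbasis : ∃ g : Fin r → Pts a b, IsMWBasis g := by
    rw [hr']
    exact ⟨g', hg'⟩
  refine ⟨hbasis, fun g hg => ?_⟩
  -- the number of points
  obtain ⟨hreg', hlim'⟩ := hcount (Fin r) g hg
  have hrg : regulator g = (TH942.gram Q g).det := by
    unfold regulator TH942.gram
    simp only [hcan]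
  have hreg : 0 < regulator g := by rw [hrg]; exact hreg'
  have htc : tors a b = Nat.card {t : TH942.SPt (a : K) (b : K) // IsOfFinAddOrder t} := rfl
  have hT0 : 0 < tors a b := by
    rw [htc]
    have h1 : Finite {t : TH942.SPt (a : K) (b : K) // IsOfFinAddOrder t} := by
      have h2 : {t : TH942.SPt (a : K) (b : K) | IsOfFinAddOrder t} ⊆
          {P | TH942.sht P ≤ C} := by
        intro t ht'
        have h9 := TH942.q_comb Q hq g t ht' 0
        simp only [Pi.zero_apply, zero_smul, Finset.sum_const_zero, zero_add, Int.cast_zero,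
          zero_mul] at h9
        have h10 := abs_le.1 (hqh t)
        simp only [Set.mem_ofPred_eq]
        linarith
      exact ((TH942.sfinite_ht C).subset h2).to_subtype
    have h2 : Nonempty {t : TH942.SPt (a : K) (b : K) // IsOfFinAddOrder t} :=
      ⟨⟨0, IsOfFinAddOrder.zero⟩⟩
    exact Nat.card_pos
  have hT : (0 : ℝ) < tors a b := by exact_mod_cast hT0
  have hV : 0 < ballVol r := TH942.ballVol_pos r
  have hsr : 0 < √(regulator g) := Real.sqrt_pos.2 hreg
  have hsr2 : √(regulator g) ^ 2 = regulator g := Real.sq_sqrt hreg.le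
  set k : ℝ := tors a b ^ 2 * ballVol r ^ 2 / regulator g with hk
  have hk0 : 0 < k := by positivity
  have hN : Tendsto (fun X : ℝ => (pointsUpTo a b X : ℝ) ^ 2 / Real.log X ^ r) atTop
      (𝓝 k) := by
    have h1 := (hlim'.comp Real.tendsto_log_atTop).pow 2
    have h2 : (Nat.card {t : TH942.SPt (a : K) (b : K) // IsOfFinAddOrder t} *
        TH942.ballVol (Fintype.card (Fin r)) / √ (TH942.gram Q g).det) ^ 2 = k := by
      rw [← hrg, ← htc, div_pow, mul_pow, hsr2, Fintype.card_fin]
      rfl
    rw [h2] at h1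
    refine h1.congr' ?_
    filter_upwards [eventually_gt_atTop 1] with X hX
    have hl : 0 < Real.log X := Real.log_pos hX
    simp only [Function.comp_apply, Fintype.card_fin]
    have h6 : (Real.log X ^ ((r : ℝ) / 2)) ^ 2 = Real.log X ^ r := by
      rw [← Real.rpow_natCast, ← Real.rpow_mul hl.le, ← Real.rpow_natCast]
      congr 1
      push_cast
      ring
    rw [div_pow, h6]
    unfold pointsUpTo
    simp only [ht_eq]
  have hNpos : ∀ᶠ X : ℝ in atTop, (0 : ℝ) < (pointsUpTo a b X : ℝ) ^ 2 := by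
    filter_upwards [eventually_ge_atTop 1] with X hX
    have h1 : Finite {P : Pts a b // ht P ≤ Real.log X} := (hfin _).to_subtype
    have h2 : Nonempty {P : Pts a b // ht P ≤ Real.log X} :=
      ⟨⟨.zero, Real.log_nonneg hX⟩⟩
    have h3 : 0 < pointsUpTo a b X := Nat.card_pos
    have h4 : (0 : ℝ) < pointsUpTo a b X := by exact_mod_cast h3
    positivity
  refine ⟨hreg, fun ρ₀ B hρ₀ hB => ?_⟩
  have hA : 0 < B * regulator g / tors a b ^ 2 := by positivity
  rw [← product_equiv a b hρ₀ r hA]
  refine forall_congr' fun ρ => forall_congr' fun ρ' => forall_congr' fun _ =>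
    forall_congr' fun _ => ?_
  have hkA : k * (B * regulator g / tors a b ^ 2) = ballVol r ^ 2 * B := by
    rw [hk]
    field_simp
  constructor
  · intro h
    have h1 := h.div hN hk0.ne'
    have h2 : ballVol r ^ 2 * B * Real.exp (-(r * Real.eulerMascheroniConstant / ρ)) / k =
        B * regulator g / tors a b ^ 2 *
          Real.exp (-(r * Real.eulerMascheroniConstant / ρ)) := by
      rw [← hkA]
      field_simp
    rw [h2] at h1
    refine h1.congr' ?_
    filter_upwards [hNpos, eventually_gt_atTop 1] with X hX hX1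
    have hl : 0 < Real.log X := Real.log_pos hX1
    have hlr : 0 < Real.log X ^ r := pow_pos hl _
    simp only [Pi.div_apply]
    generalize (pointsUpTo a b X : ℝ) ^ 2 = n at hX ⊢
    field_simp
  · intro h
    have h1 := hN.mul h
    have h2 : k * (B * regulator g / tors a b ^ 2 *
        Real.exp (-(r * Real.eulerMascheroniConstant / ρ))) = ballVol r ^ 2 * B *
          Real.exp (-(r * Real.eulerMascheroniConstant / ρ)) := by
      rw [← mul_assoc, hkA]
    rw [h2] at h1
    refine h1.congr' ?_
    filter_upwards [eventually_gt_atTop 1] with X hX1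
    have hl : 0 < Real.log X := Real.log_pos hX1
    have hlr : 0 < Real.log X ^ r := pow_pos hl _
    field_simp

end Pool.Agent.Results.MP_9ab903_nt.LimitFormula
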