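import Mathlib
import Pool.Agent.TH827.R2.Sim2

set_option autoImplicit false

namespace Pool.Agent.Results.MP_9ab903_nt.PairsEveryInterval

/-- the curve `y² = (x - e₁ t) (x - e₂ t) (x - e₃ t)`, the quadratic twist by `t` of
`y² = (x - e₁) (x - e₂) (x - e₃)` -/
def twist (e₁ e₂ e₃ t : ℤ) : WeierstrassCurve ℚ where
  a₁ := 0
  a₂ := ((-(e₁ + e₂ + e₃) * t : ℤ) : ℚ)
  a₃ := 0
  a₄ := (((e₁ * e₂ + e₁ * e₃ + e₂ * e₃) * t ^ 2 : ℤ) : ℚ)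
  a₆ := ((-(e₁ * e₂ * e₃) * t ^ 3 : ℤ) : ℚ)

/-- the curve has a rational point of infinite order -/
def PositiveRank (W : WeierstrassCurve ℚ) : Prop :=
  ∃ P : W.toAffine.Point, ∀ m : ℤ, m • P = 0 → m = 0

theorem crv_eq (e₁ e₂ e₃ t : ℤ) :
    Pool.Agent.H918R3.crv ((e₁ : ℚ) * (t : ℚ)) ((e₂ : ℚ) * (t : ℚ)) ((e₃ : ℚ) * (t : ℚ)) =
      twist e₁ e₂ e₃ t := by
  unfold Pool.Agent.H918R3.crv twist
  congr 1 <;> push_cast <;> ring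

theorem twist_rot (e₁ e₂ e₃ t : ℤ) : twist e₂ e₃ e₁ t = twist e₁ e₂ e₃ t := by
  unfold twist
  congr 1 <;> push_cast <;> ring

/-- the statement for one matching of the two-torsion points -/
theorem one_matching {e₁ e₂ e₃ f₁ f₂ f₃ : ℤ} (h12 : e₁ ≠ e₂) (h13 : e₁ ≠ e₃) (h23 : e₂ ≠ e₃)
    (k12 : f₁ ≠ f₂) (k13 : f₁ ≠ f₃) (k23 : f₂ ≠ f₃) {ε : ℤ} (hε : ε = 1 ∨ ε = -1)
    (hs : ((e₂ - e₃) * (e₃ - e₁) * (e₁ - e₂) *
      ((f₃ - f₁) * (e₁ - e₂) - (f₁ - f₂) * (e₃ - e₁))).sign = ε) :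
    ∃ h : ℕ, Squarefree h ∧ ∀ M : ℕ, 0 < M → ∃ C : ℝ, 0 < C ∧ ∀ X : ℝ, 2 ≤ X → ∃ d : ℕ,
        X ≤ ((h * d : ℕ) : ℝ) ∧
        ((h * d : ℕ) : ℝ) ≤ X + C * X ^ ((5 : ℝ) / 6) * (Real.log X) ^ 4 ∧
        Squarefree (h * d) ∧ d ≡ 1 [MOD M] ∧
        PositiveRank (twist e₁ e₂ e₃ (ε * (h * d : ℕ))) ∧
        PositiveRank (twist f₁ f₂ f₃ (ε * (h * d : ℕ))) := by
  obtain ⟨n, hn⟩ : ∃ n, n = (e₂ - e₃) * (e₃ - e₁) * (e₁ - e₂) *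
      ((f₃ - f₁) * (e₁ - e₂) - (f₁ - f₂) * (e₃ - e₁)) := ⟨_, rfl⟩
  rw [← hn] at hs
  have hn0 : n ≠ 0 := by
    rintro h0
    rw [h0, Int.sign_zero] at hs
    rcases hε with h | h <;> omega
  obtain ⟨h, g, hhg, hh⟩ := Nat.sq_mul_squarefree n.natAbs
  have hhg' : h * g ^ 2 = n.natAbs := by
    rw [← hhg]; ring
  refine ⟨h, hh, fun M hM => ?_⟩
  obtain ⟨C, hC, hX⟩ := Pool.Agent.TH827.R2.sim_main h12 h13 h23 k12 k13 k23 hn hn0 hh hhg' hM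
  refine ⟨C, hC, fun X h2 => ?_⟩
  obtain ⟨d, hd1, hd2, hd3, hd4, hd5, hd6⟩ := hX X h2
  refine ⟨d, hd1, hd2, hd3, hd4, ?_, ?_⟩
  · have h5 : PositiveRank (Pool.Agent.H918R3.crv _ _ _) := hd5
    rw [crv_eq, hs] at h5
    exact h5
  · have h5 : PositiveRank (Pool.Agent.H918R3.crv _ _ _) := hd6
    rw [crv_eq, hs] at h5
    exact h5

/-- among the three cyclic matchings both signs occur -/
theorem signs {x₁ x₂ x₃ y₁ y₂ y₃ : ℤ} (hx1 : x₁ ≠ 0) (hx2 : x₂ ≠ 0) (hx3 : x₃ ≠ 0)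
    (hxs : x₁ + x₂ + x₃ = 0) (hy1 : y₁ ≠ 0)
    (hys : y₁ + y₂ + y₃ = 0) {ε : ℤ} (hε : ε = 1 ∨ ε = -1) :
    (x₁ * x₂ * x₃ * (y₂ * x₃ - y₃ * x₂)).sign = ε ∨ (x₁ * x₂ * x₃ * (y₃ * x₃ - y₁ * x₂)).sign = ε ∨
      (x₁ * x₂ * x₃ * (y₁ * x₃ - y₂ * x₂)).sign = ε := by
  have hπ : x₁ * x₂ * x₃ ≠ 0 := mul_ne_zero (mul_ne_zero hx1 hx2) hx3
  set a := x₁ * x₂ * x₃ * (y₂ * x₃ - y₃ * x₂) with ha
  set b := x₁ * x₂ * x₃ * (y₃ * x₃ - y₁ * x₂) with hb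
  set c := x₁ * x₂ * x₃ * (y₁ * x₃ - y₂ * x₂) with hc
  have hsum : a + b + c = 0 := by
    rw [ha, hb, hc]
    have : x₁ * x₂ * x₃ * (y₂ * x₃ - y₃ * x₂) + x₁ * x₂ * x₃ * (y₃ * x₃ - y₁ * x₂) +
      x₁ * x₂ * x₃ * (y₁ * x₃ - y₂ * x₂) = x₁ * x₂ * x₃ * (x₃ - x₂) * (y₁ + y₂ + y₃) := by ring
    rw [this, hys, mul_zero]
  have hnz : ¬ (a = 0 ∧ b = 0 ∧ c = 0) := by
    rintro ⟨h1, h2, h3⟩
    rw [ha] at h1
    rw [hb] at h2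
    rw [hc] at h3
    have h1' := (mul_eq_zero.1 h1).resolve_left hπ
    have h2' := (mul_eq_zero.1 h2).resolve_left hπ
    have h3' := (mul_eq_zero.1 h3).resolve_left hπ
    -- y₁ (x₃² + x₃ x₂ + x₂²) = 0
    have h4 : y₁ * (x₃ ^ 2 + x₃ * x₂ + x₂ ^ 2) = 0 := by
      linear_combination x₃ * h3' - x₂ * h2' + x₂ * x₃ * hys - 0 * h1'
    rcases mul_eq_zero.1 h4 with h5 | h5
    · exact hy1 h5
    · have h6 : 0 < x₃ ^ 2 := by positivity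
      nlinarith [sq_nonneg (x₃ + 2 * x₂)]
  rcases hε with rfl | rfl
  · have : 0 < a ∨ 0 < b ∨ 0 < c := by
      by_contra hcon
      push Not at hcon
      obtain ⟨g1, g2, g3⟩ := hcon
      exact hnz ⟨by omega, by omega, by omega⟩
    rcases this with h | h | h
    · exact Or.inl (Int.sign_eq_one_of_pos h)
    · exact Or.inr (Or.inl (Int.sign_eq_one_of_pos h))
    · exact Or.inr (Or.inr (Int.sign_eq_one_of_pos h))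
  · have : a < 0 ∨ b < 0 ∨ c < 0 := by
      by_contra hcon
      push Not at hcon
      obtain ⟨g1, g2, g3⟩ := hcon
      exact hnz ⟨by omega, by omega, by omega⟩
    rcases this with h | h | h
    · exact Or.inl (Int.sign_eq_neg_one_of_neg h)
    · exact Or.inr (Or.inl (Int.sign_eq_neg_one_of_neg h))
    · exact Or.inr (Or.inr (Int.sign_eq_neg_one_of_neg h))

/-- Any two elliptic curves over `ℚ` with full rational 2-torsion, and either sign: there is a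
squarefree `h` such that every interval `[X, X + C X ^ (5/6) (log X) ^ 4]` contains a squarefree
number `h d`, `d ≡ 1 mod M`, such that both twists by `± h d` have positive rank. -/
theorem result (e₁ e₂ e₃ f₁ f₂ f₃ : ℤ) (h12 : e₁ ≠ e₂) (h13 : e₁ ≠ e₃) (h23 : e₂ ≠ e₃)
    (k12 : f₁ ≠ f₂) (k13 : f₁ ≠ f₃) (k23 : f₂ ≠ f₃) (ε : ℤ) (hε : ε = 1 ∨ ε = -1) :
    ∃ h : ℕ, Squarefree h ∧ ∀ M : ℕ, 0 < M → ∃ C : ℝ, 0 < C ∧ ∀ X : ℝ, 2 ≤ X → ∃ d : ℕ,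
        X ≤ ((h * d : ℕ) : ℝ) ∧
        ((h * d : ℕ) : ℝ) ≤ X + C * X ^ ((5 : ℝ) / 6) * (Real.log X) ^ 4 ∧
        Squarefree (h * d) ∧ d ≡ 1 [MOD M] ∧
        PositiveRank (twist e₁ e₂ e₃ (ε * (h * d : ℕ))) ∧
        PositiveRank (twist f₁ f₂ f₃ (ε * (h * d : ℕ))) := by
  have hsg := signs (x₁ := e₂ - e₃) (x₂ := e₃ - e₁) (x₃ := e₁ - e₂) (y₁ := f₂ - f₃) (y₂ := f₃ - f₁)
    (y₃ := f₁ - f₂) (sub_ne_zero.2 h23) (sub_ne_zero.2 h13.symm) (sub_ne_zero.2 h12) (by ring)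
    (sub_ne_zero.2 k23) (by ring) hε
  rcases hsg with hs | hs | hs
  · exact one_matching h12 h13 h23 k12 k13 k23 hε hs
  · -- the matching (f₂, f₃, f₁)
    have := one_matching (f₁ := f₂) (f₂ := f₃) (f₃ := f₁) h12 h13 h23 k23 k12.symm k13.symm hε hs
    simpa only [twist_rot] using this
  · -- the matching (f₃, f₁, f₂)
    have := one_matching (f₁ := f₃) (f₂ := f₁) (f₃ := f₂) h12 h13 h23 k13.symm k23.symm k12 hε hs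
    have e : ∀ t, twist f₃ f₁ f₂ t = twist f₁ f₂ f₃ t := by
      intro t
      rw [twist_rot f₃ f₁ f₂ t |>.symm]
    simpa only [e] using this

end Pool.Agent.Results.MP_9ab903_nt.PairsEveryInterval
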