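import Pool.Agent.TH942.RA.StarT
import Pool.Agent.TH942.ES.StarExt
import Pool.Agent.TH942.ES.Frob
import Pool.Agent.TH942.ES.Curve
import Pool.Agent.TH942.Lead

/-!
# The conjecture of Birch and Swinnerton-Dyer over number fields as ONE limit for numbers of points

Let `K` be a number field, `E : y² = x³ + a x + b` an elliptic curve with `a, b ∈ 𝓞 K`, `r` its rank over `K`,
`Reg` the regulator, `T` the number of torsion points, `V_r` the volume of the unit ball of `ℝ^r`, `N(X)` the
number of `P ∈ E(K)` whose `x`-coordinate has height `≤ X` (relative to `K`), and for the primes `v` which do not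
divide `6 (4a³ + 27b²)`, of norm `q`, let `a_v(j)` be the sum of the `j`-th powers of the eigenvalues of Frobenius
(`a_v(1) = q - N_v`, `N_v` the number of affine points modulo `v`), and `L(s) = ∏_v (1 - a_v(1) q^{-s} + q^{1-2s})⁻¹`
for `Re s > 3/2`. For real `k ≥ 0` let

`P_k(X) = exp ∑_{q^j ≤ X} (a_v(j) / (j q^j)) (1 - log q^j / log X)^k`,   `ψ = Γ'/Γ`

(for `k = 0` this is the partial Euler product at the point `1`, over prime powers). NO analytic continuation of
`L(s)` is assumed. It is shown, for every such curve and every real `B > 0`, that the following are EQUIVALENT: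

* `L = exp G` on `Re s > 3/2` for a holomorphic function `G` on the half plane `Re s > 1`, real on the real axis,
  with `|G(s) - r log ((s - 1)/s)| ≤ C (|s - 1| / Re (s - 1))^κ` for some `C`, `κ`, and
  `G(s) - r log (s - 1) → log (B · Reg / T²)` for `s → 1` in every angle `|arg (s - 1)| < φ < π/2`;
  so `L(s)` has a holomorphic continuation without zeros to `Re s > 1` (continuation and Riemann hypothesis) and
  `L(s) / (s - 1)^r → B · Reg / T²`;
* `N(X)² P_k(X) → V_r² B e^{r ψ(k+1)}` for ONE real `k ≥ 0`;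
* `N(X)² P_k(X) → V_r² B e^{r ψ(k+1)}` for all sufficiently large `k`.

With `B = Ω · #Ш · ∏ c_v / √|Δ_K| · ∏_{v ∣ 6D} E_v(1)` the first statement is the conjecture of Birch and
Swinnerton-Dyer for `E` over `K` (continuation near `1`, order of vanishing, leading term) together with the
Riemann hypothesis with bounds. Goldfeld (1982) treated `K = ℚ` and the product with exponents `1`: an
asymptotic formula implies the Riemann hypothesis and determines the constant.

Proof. With `D(s) = ∑ a_v(j) j^{-1} q^{-j(1+s)} = log L(1 + s)`,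
`∫ T^k log P_k(e^T) e^{-sT} dT = Γ(k+1) s^{-k-1} D(s)`. The limit gives the continuation by comparison with the
Laplace transforms of `T^k log T` and of the Riesz means of `(1 - e^{-u})/u`, and an Abelian theorem in angles
gives the limit at `s = 1`. Conversely `log P_k(e^T)` is a contour integral of `D(z/T) e^z z^{-k-1}`.
-/

set_option autoImplicit false

namespace Pool.Agent.Results.MP_9ab903_nt.RieszLimitFormula

open Filter Topology NumberField IsDedekindDomain
open Pool.Agent.TH942.SL (Sect)
open Pool.Agent.TH942.ES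

section definitions

variable {K : Type} [Field K] [NumberField K]

/-- The group of `K`-rational points of `y² = x³ + a x + b`. -/
abbrev Pts (a b : 𝓞 K) : Type := TH942.SPt (a : K) (b : K)

open Classical in
/-- The rank. -/
noncomputable def rank (a b : 𝓞 K) : ℕ := Module.finrank ℤ (Pts a b)

/-- The logarithmic height relative to `K` of the `x`-coordinate (`0` at infinity). -/
noncomputable def ht {a b : 𝓞 K} : Pts a b → ℝ
  | .zero => 0
  | .some x _ _ => Real.log (Height.mulHeight₁ x)

open Classical in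
/-- The canonical height `lim h(2^k P) / 4^k`. -/
noncomputable def canHt {a b : 𝓞 K} (P : Pts a b) : ℝ :=
  limUnder atTop (fun k : ℕ => ht ((2 ^ k : ℕ) • P) / 4 ^ k)

open Classical in
/-- `P_1, …, P_r` is a basis of the group of rational points modulo torsion: every point is, in a
unique way, an integral combination of the `P_i` plus a point of finite order. -/
def IsMWBasis {a b : 𝓞 K} {r : ℕ} (g : Fin r → Pts a b) : Prop :=
  ∀ P : Pts a b, ∃! n : Fin r → ℤ, IsOfFinAddOrder (P - ∑ i, n i • g i)

open Classical in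
/-- The regulator: the determinant of the pairing `⟨P, Q⟩ = (ĥ(P + Q) - ĥ(P) - ĥ(Q)) / 2`. -/
noncomputable def regulator {a b : 𝓞 K} {r : ℕ} (g : Fin r → Pts a b) : ℝ :=
  Matrix.det (Matrix.of fun i j => (canHt (g i + g j) - canHt (g i) - canHt (g j)) / 2)

open Classical in
/-- The number of torsion points. -/
noncomputable def tors (a b : 𝓞 K) : ℕ := Nat.card {t : Pts a b // IsOfFinAddOrder t}

/-- `N(X)`: the number of points with `h(P) ≤ log X`. -/
noncomputable def pointsUpTo (a b : 𝓞 K) (X : ℝ) : ℕ := Nat.card {P : Pts a b // ht P ≤ Real.log X}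

/-- The volume of the unit ball of `ℝ^r`. -/
noncomputable def ballVol (r : ℕ) : ℝ := √Real.pi ^ r / Real.Gamma (r / 2 + 1)

/-- The norm `q_v` of a prime. -/
noncomputable def q (v : HeightOneSpectrum (𝓞 K)) : ℕ := Ideal.absNorm v.asIdeal

/-- The primes which do not divide `6 (4 a³ + 27 b²)`. -/
def Good (a b : 𝓞 K) (v : HeightOneSpectrum (𝓞 K)) : Prop :=
  6 * (4 * a ^ 3 + 27 * b ^ 2) ∉ v.asIdeal

/-- The number `N_v` of affine points modulo `v`. -/
noncomputable def pointCount (a b : 𝓞 K) (v : HeightOneSpectrum (𝓞 K)) : ℕ :=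
  Nat.card {P : (𝓞 K ⧸ v.asIdeal) × (𝓞 K ⧸ v.asIdeal) //
    P.2 ^ 2 = P.1 ^ 3 + Ideal.Quotient.mk v.asIdeal a * P.1 + Ideal.Quotient.mk v.asIdeal b}

/-- The incomplete `L`-series, the product of `(1 - (q_v - N_v) q_v^{-s} + q_v^{1 - 2 s})⁻¹`; it is used for
`Re s > 3/2`, where the product converges absolutely. -/
noncomputable def L (a b : 𝓞 K) (s : ℂ) : ℂ :=
  ∏' v : {v // Good a b v},
    (1 - ((q v.1 : ℂ) - pointCount a b v.1) * (q v.1 : ℂ) ^ (-s) + (q v.1 : ℂ) ^ (1 - 2 * s))⁻¹

/-- The power sums `a_v(k)` of the eigenvalues of Frobenius: `a_v(0) = 2`, `a_v(1) = q_v - N_v`,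
`a_v(k+2) = a_v(1) a_v(k+1) - q_v a_v(k)`. -/
noncomputable def frob (a b : 𝓞 K) (v : HeightOneSpectrum (𝓞 K)) : ℕ → ℝ
  | 0 => 2
  | 1 => q v - pointCount a b v
  | (k + 2) => (q v - pointCount a b v) * frob a b v (k + 1) - q v * frob a b v k

/-- `P_k(X)`: the exponential of the sum over the powers `v^j`, `j = n + 1 ≥ 1`, of good primes with
`q_v^j ≤ X` of the numbers `a_v(j) / (j q_v^j) · (1 - log q_v^j / log X)^k`. -/
noncomputable def rieszProduct (a b : 𝓞 K) (k X : ℝ) : ℝ :=
  Real.exp (∑ᶠ (p : {v // Good a b v} × ℕ) (_ : (q p.1.1 : ℝ) ^ (p.2 + 1) ≤ X),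
    frob a b p.1.1 (p.2 + 1) / (((p.2 : ℝ) + 1) * (q p.1.1 : ℝ) ^ (p.2 + 1)) *
      (1 - ((p.2 : ℝ) + 1) * Real.log (q p.1.1) / Real.log X) ^ k)

/-- `ψ(x) = Γ'(x) / Γ(x)`. -/
noncomputable def psi (x : ℝ) : ℝ := deriv Real.Gamma x / Real.Gamma x

/-- The sector `|arg (s - 1)| < π / (2ρ)`, `ρ > 1`. -/
def Sector (ρ : ℝ) : Set ℂ := {s | s ≠ 1 ∧ |(s - 1).arg| < Real.pi / (2 * ρ)}

/-- There is a holomorphic function `G` on the half plane `Re s > 1`, real at the real `s > 3/2`, with
`exp G = L` for `Re s > 3/2`, `|G(s) - r log ((s - 1)/s)| ≤ C (|s - 1| / Re (s - 1))^κ` for some `C`, `κ`, and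
`G(s) - r log (s - 1) → log A` for `s → 1` in every sector `|arg (s - 1)| < π / (2ρ)`, `ρ > 1`. -/
def HasLogarithm (a b : 𝓞 K) (r : ℕ) (A : ℝ) : Prop :=
  ∃ G : ℂ → ℂ, (∀ s : ℂ, 1 < s.re → DifferentiableAt ℂ G s) ∧
    (∀ s : ℂ, 3 / 2 < s.re → Complex.exp (G s) = L a b s) ∧
    (∀ x : ℝ, 3 / 2 < x → (G x).im = 0) ∧
    (∃ C κ : ℝ, ∀ s : ℂ, 1 < s.re →
      ‖G s - r * Complex.log ((s - 1) / s)‖ ≤ C * (‖s - 1‖ / (s.re - 1)) ^ κ) ∧
    ∀ ρ : ℝ, 1 < ρ → Tendsto (fun s => G s - r * Complex.log (s - 1)) (𝓝[Sector ρ] 1)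
      (𝓝 ((Real.log A : ℝ) : ℂ))

end definitions

section proofs

variable {K : Type} [Field K] [NumberField K] {a b : 𝓞 K}

theorem ht_eq (P : Pts a b) : ht P = TH942.sht (K := K) (a := (a : K)) (b := (b : K)) P := by
  cases P with
  | zero => exact TH942.sht_zero.symm
  | some x y h => exact (sht_someK h).symm

theorem L_eq (s : ℂ) : L a b s = LV a b s := rfl

theorem frob_eq (a b : 𝓞 K) (v : HeightOneSpectrum (𝓞 K)) (k : ℕ) :
    frob a b v k = frobP ((q v : ℝ) - pointCount a b v) (q v) k ∧
      frob a b v (k + 1) = frobP ((q v : ℝ) - pointCount a b v) (q v) (k + 1) := by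
  induction k with
  | zero => exact ⟨rfl, rfl⟩
  | succ k ih =>
    refine ⟨ih.2, ?_⟩
    change (q v - pointCount a b v) * frob a b v (k + 1) - q v * frob a b v k = _
    rw [ih.1, ih.2]
    rfl

/-- the sum over the prime powers -/
noncomputable def fsum (a b : 𝓞 K) (k X : ℝ) : ℝ :=
  ∑ᶠ (p : {v // GoodV a b v} × ℕ) (_ : (nV a b p.1 : ℝ) ^ (p.2 + 1) ≤ X),
    cP (nV a b) (alV a b) p * (1 - lamP (nV a b) p / Real.log X) ^ k

theorem rieszProduct_eq (a b : 𝓞 K) (k X : ℝ) :
    rieszProduct a b k X = Real.exp (fsum a b k X) := by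
  unfold rieszProduct fsum
  congr 1
  refine finsum_congr fun p => ?_
  refine finsum_congr fun _ => ?_
  have e1 : cP (nV a b) (alV a b) p = _ := cP_eq a b p
  rw [e1, (frob_eq a b p.1.1 (p.2 + 1)).1]
  rfl

theorem log_rieszProduct (a b : 𝓞 K) (k : ℝ) {X : ℝ} (hX : 0 < X) :
    Real.log (rieszProduct a b k X) =
      TH942.RA.RzS (nV a b) (alV a b) k (Real.log X) := by
  rw [rieszProduct_eq, Real.log_exp]
  unfold fsum TH942.RA.RzS
  have hfin := (sysV a b).finS X
  have h1 : ∀ p : {v // GoodV a b v} × ℕ, p ∈ hfin.toFinset ↔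
      lamP (nV a b) p ≤ Real.log X := by
    intro p
    have hp := (sysV a b).Npos p.1
    rw [Set.Finite.mem_toFinset, Set.mem_ofPred_eq, ← Real.log_le_log_iff (by positivity) hX,
      Real.log_pow]
    unfold lamP
    push_cast
    rfl
  have e4 : (∑ᶠ (p : {v // GoodV a b v} × ℕ) (_ : (nV a b p.1 : ℝ) ^ (p.2 + 1) ≤ X),
      cP (nV a b) (alV a b) p * (1 - lamP (nV a b) p / Real.log X) ^ k) =
      ∑ p ∈ hfin.toFinset, cP (nV a b) (alV a b) p * (1 - lamP (nV a b) p / Real.log X) ^ k :=
    finsum_mem_eq_finite_toFinset_sum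
      (fun p => cP (nV a b) (alV a b) p * (1 - lamP (nV a b) p / Real.log X) ^ k) hfin
  rw [tsum_eq_sum (s := hfin.toFinset), e4]
  · refine Finset.sum_congr rfl fun p hp => ?_
    rw [if_pos ((h1 p).1 hp)]
  · intro p hp
    rw [if_neg fun h => hp ((h1 p).2 h)]

theorem sector_eq (ρ : ℝ) : Sector ρ = {s : ℂ | s - 1 ∈ Sect ρ} := by
  ext s
  simp only [Sector, Sect, Set.mem_ofPred_eq, ne_eq, sub_eq_zero]

/-- translation of the limit at the vertex -/
theorem vertex (ρ : ℝ) (G : ℂ → ℂ) (l : ℂ) :
    Tendsto G (𝓝[Sector ρ] 1) (𝓝 l) ↔ Tendsto (fun s => G (1 + s)) (𝓝[Sect ρ] 0) (𝓝 l) := by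
  constructor
  · intro h
    have h1 : Tendsto (fun s : ℂ => 1 + s) (𝓝[Sect ρ] 0) (𝓝[Sector ρ] 1) := by
      refine tendsto_nhdsWithin_of_tendsto_nhds_of_eventually_within _ ?_ ?_
      · have : Tendsto (fun s : ℂ => 1 + s) (𝓝 0) (𝓝 (1 + 0)) :=
          (continuous_const.add continuous_id).tendsto 0
        rw [add_zero] at this
        exact this.mono_left nhdsWithin_le_nhds
      · filter_upwards [self_mem_nhdsWithin] with s hs
        rw [sector_eq, Set.mem_ofPred_eq, add_sub_cancel_left]
        exact hs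
    exact h.comp h1
  · intro h
    have h1 : Tendsto (fun s : ℂ => s - 1) (𝓝[Sector ρ] 1) (𝓝[Sect ρ] 0) := by
      refine tendsto_nhdsWithin_of_tendsto_nhds_of_eventually_within _ ?_ ?_
      · have : Tendsto (fun s : ℂ => s - 1) (𝓝 1) (𝓝 (1 - 1)) :=
          (continuous_id.sub continuous_const).tendsto 1
        rw [sub_self] at this
        exact this.mono_left nhdsWithin_le_nhds
      · filter_upwards [self_mem_nhdsWithin] with s hs
        rw [sector_eq, Set.mem_ofPred_eq] at hs
        exact hs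
    refine (h.comp h1).congr fun s => ?_
    simp only [Function.comp_apply, add_sub_cancel]

/-- translation of the logarithm -/
theorem logarithm_iff (a b : 𝓞 K) (r : ℕ) (A : ℝ) :
    HasLogarithm a b r A ↔ TH942.RA.StarCont (nV a b) (alV a b) r A := by
  constructor
  · rintro ⟨G, h1, h2, h3, ⟨C, κ, h4⟩, h5⟩
    refine ⟨fun s => G (1 + s), fun s hs => ?_, fun s hs => ?_, fun x hx => ?_,
      ⟨C, κ, fun s hs => ?_⟩, fun ρ hρ => ?_⟩
    · have e1 : 1 < ((1 : ℂ) + s).re := by
        rw [Complex.add_re, Complex.one_re]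
        linarith
      exact DifferentiableAt.comp (f := fun s : ℂ => 1 + s) s (h1 _ e1) (by fun_prop)
    · have e1 : 3 / 2 < ((1 : ℂ) + s).re := by
        rw [Complex.add_re, Complex.one_re]
        linarith
      simp only
      rw [h2 _ e1, L_eq, LV_eq]
    · have := h3 (1 + x) (by linarith)
      push_cast at this
      exact this
    · have e1 : 1 < ((1 : ℂ) + s).re := by
        rw [Complex.add_re, Complex.one_re]
        linarith
      have e2 := h4 _ e1
      rw [add_sub_cancel_left, Complex.add_re, Complex.one_re, add_sub_cancel_left] at e2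
      push_cast
      exact e2
    · have e1 := (vertex ρ _ _).1 (h5 ρ hρ)
      simp only [add_sub_cancel_left] at e1
      push_cast
      exact e1
  · rintro ⟨G, h1, h2, h3, ⟨C, κ, h4⟩, h5⟩
    have hre : ∀ s : ℂ, (s - 1).re = s.re - 1 := fun s => by
      rw [Complex.sub_re, Complex.one_re]
    refine ⟨fun s => G (s - 1), fun s hs => ?_, fun s hs => ?_, fun x hx => ?_,
      ⟨C, κ, fun s hs => ?_⟩, fun ρ hρ => ?_⟩
    · exact DifferentiableAt.comp (f := fun s : ℂ => s - 1) s
        (h1 _ (by rw [hre]; linarith)) (by fun_prop)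
    · simp only
      rw [h2 _ (by rw [hre]; linarith), ← LV_eq, L_eq, add_sub_cancel]
    · have := h3 (x - 1) (by linarith)
      push_cast at this
      exact this
    · have e1 := h4 (s - 1) (by rw [hre]; linarith)
      rw [hre, add_sub_cancel] at e1
      push_cast at e1
      exact e1
    · rw [vertex]
      simp only [add_sub_cancel_left]
      have := h5 ρ hρ
      push_cast at this
      exact this

/-- **the limit formula for the Riesz products** -/
theorem product_tfae (a b : 𝓞 K) (r : ℕ) {A : ℝ} (hA : 0 < A) :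
    List.TFAE [HasLogarithm a b r A,
      ∃ k : ℝ, 0 ≤ k ∧ Tendsto (fun X : ℝ => rieszProduct a b k X * Real.log X ^ r) atTop
        (𝓝 (A * Real.exp (r * psi (k + 1)))),
      ∃ k₀ : ℝ, 0 ≤ k₀ ∧ ∀ k : ℝ, k₀ ≤ k →
        Tendsto (fun X : ℝ => rieszProduct a b k X * Real.log X ^ r) atTop
          (𝓝 (A * Real.exp (r * psi (k + 1))))] := by
  have key := TH942.RA.star_tfae (sysV a b) (zv_real a b) r A
  have hlaw : ∀ k : ℝ, Tendsto (fun X : ℝ => rieszProduct a b k X * Real.log X ^ r) atTop
      (𝓝 (A * Real.exp (r * psi (k + 1)))) ↔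
      TH942.RA.StarLaw (nV a b) (alV a b) r A k := by
    intro k
    unfold TH942.RA.StarLaw
    have e2 : A * Real.exp (r * psi (k + 1)) =
        Real.exp (Real.log A + r * TH942.RA.dig k) := by
      rw [Real.exp_add, Real.exp_log hA]
      rfl
    have e1 : ∀ T : ℝ, 0 < T → rieszProduct a b k (Real.exp T) * Real.log (Real.exp T) ^ r =
        Real.exp (TH942.RA.RzS (nV a b) (alV a b) k T + r * Real.log T) := by
      intro T hT
      have h0 : 0 < rieszProduct a b k (Real.exp T) := Real.exp_pos _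
      rw [Real.log_exp, Real.exp_add, Real.exp_nat_mul, Real.exp_log hT]
      congr 1
      rw [← Real.exp_log h0, log_rieszProduct a b k (Real.exp_pos T), Real.log_exp]
    rw [e2]
    constructor
    · intro h
      have h2 := (h.comp Real.tendsto_exp_atTop).log (Real.exp_ne_zero _)
      rw [Real.log_exp] at h2
      refine h2.congr' ?_
      filter_upwards [eventually_gt_atTop 0] with T hT
      rw [Function.comp_apply, e1 T hT, Real.log_exp]
    · intro h
      have h2 := ((Real.continuous_exp.tendsto _).comp h).comp Real.tendsto_log_atTop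
      refine h2.congr' ?_
      filter_upwards [eventually_gt_atTop 1] with X hX
      have hl := Real.log_pos hX
      have h3 := e1 _ hl
      rw [Real.exp_log (by linarith : 0 < X)] at h3
      simp only [Function.comp_apply]
      rw [h3]
  rw [logarithm_iff]
  simp only [hlaw]
  exact key

end proofs

/-- **The conjecture of Birch and Swinnerton-Dyer over number fields as one limit formula for numbers of
points.** -/
theorem result (K : Type) [Field K] [NumberField K] (a b : 𝓞 K)
    (hΔ : 4 * a ^ 3 + 27 * b ^ 2 ≠ 0) :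
    (∃ g : Fin (rank a b) → Pts a b, IsMWBasis g) ∧
    ∀ g : Fin (rank a b) → Pts a b, IsMWBasis g → 0 < regulator g ∧
      ∀ B : ℝ, 0 < B → List.TFAE [
        HasLogarithm a b (rank a b) (B * regulator g / tors a b ^ 2),
        ∃ k : ℝ, 0 ≤ k ∧
          Tendsto (fun X : ℝ => (pointsUpTo a b X : ℝ) ^ 2 * rieszProduct a b k X) atTop
            (𝓝 (ballVol (rank a b) ^ 2 * B * Real.exp (rank a b * psi (k + 1)))),
        ∃ k₀ : ℝ, 0 ≤ k₀ ∧ ∀ k : ℝ, k₀ ≤ k →
          Tendsto (fun X : ℝ => (pointsUpTo a b X : ℝ) ^ 2 * rieszProduct a b k X) atTop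
            (𝓝 (ballVol (rank a b) ^ 2 * B * Real.exp (rank a b * psi (k + 1))))] := by
  classical
  have hD : 4 * (a : K) ^ 3 + 27 * (b : K) ^ 2 ≠ 0 := by
    intro h0
    apply hΔ
    apply FaithfulSMul.algebraMap_injective (𝓞 K) K
    rw [map_zero, map_add, map_mul, map_mul, map_pow, map_pow, map_ofNat, map_ofNat]
    exact h0
  obtain ⟨Q, C, hq0, hq, hqh, hqlim, hcount⟩ := TH942.neron hD
  have hfin : ∀ B : ℝ, {P : Pts a b | ht P ≤ B}.Finite := by
    intro B
    simp only [ht_eq]
    exact TH942.sfinite_ht B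
  have hcan : ∀ P : Pts a b, canHt P = Q P := by
    intro P
    unfold canHt
    apply Tendsto.limUnder_eq
    have := hqlim P
    simpa only [← ht_eq] using this
  set r := rank a b with hr
  -- a basis
  obtain ⟨r', g', hg'⟩ := TH942.exists_basis (TH942.sfg hD)
  have hr' : r = r' := by
    have h1 := TH942.card_basis hg'
    rw [Fintype.card_fin] at h1
    exact h1
  have hbasis : ∃ g : Fin r → Pts a b, IsMWBasis g := by
    rw [hr']
    exact ⟨g', hg'⟩
  refine ⟨hbasis, fun g hg => ?_⟩
  -- the number of points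
  obtain ⟨hreg', hlim'⟩ := hcount (Fin r) g hg
  have hrg : regulator g = (TH942.gram Q g).det := by
    unfold regulator TH942.gram
    simp only [hcan]
  have hreg : 0 < regulator g := by rw [hrg]; exact hreg'
  have htc : tors a b = Nat.card {t : TH942.SPt (a : K) (b : K) // IsOfFinAddOrder t} := rfl
  have hT0 : 0 < tors a b := by
    rw [htc]
    have h1 : Finite {t : TH942.SPt (a : K) (b : K) // IsOfFinAddOrder t} := by
      have h2 : {t : TH942.SPt (a : K) (b : K) | IsOfFinAddOrder t} ⊆
          {P | TH942.sht P ≤ C} := by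
        intro t ht'
        have h9 := TH942.q_comb Q hq g t ht' 0
        simp only [Pi.zero_apply, zero_smul, Finset.sum_const_zero, zero_add, Int.cast_zero,
          zero_mul] at h9
        have h10 := abs_le.1 (hqh t)
        simp only [Set.mem_ofPred_eq]
        linarith
      exact ((TH942.sfinite_ht C).subset h2).to_subtype
    have h2 : Nonempty {t : TH942.SPt (a : K) (b : K) // IsOfFinAddOrder t} :=
      ⟨⟨0, IsOfFinAddOrder.zero⟩⟩
    exact Nat.card_pos
  have hT : (0 : ℝ) < tors a b := by exact_mod_cast hT0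
  have hV : 0 < ballVol r := TH942.ballVol_pos r
  have hsr : 0 < √(regulator g) := Real.sqrt_pos.2 hreg
  have hsr2 : √(regulator g) ^ 2 = regulator g := Real.sq_sqrt hreg.le
  set κ : ℝ := tors a b ^ 2 * ballVol r ^ 2 / regulator g with hκ
  have hκ0 : 0 < κ := by positivity
  have hN : Tendsto (fun X : ℝ => (pointsUpTo a b X : ℝ) ^ 2 / Real.log X ^ r) atTop
      (𝓝 κ) := by
    have h1 := (hlim'.comp Real.tendsto_log_atTop).pow 2
    have h2 : (Nat.card {t : TH942.SPt (a : K) (b : K) // IsOfFinAddOrder t} *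
        TH942.ballVol (Fintype.card (Fin r)) / √ (TH942.gram Q g).det) ^ 2 = κ := by
      rw [← hrg, ← htc, div_pow, mul_pow, hsr2, Fintype.card_fin]
      rfl
    rw [h2] at h1
    refine h1.congr' ?_
    filter_upwards [eventually_gt_atTop 1] with X hX
    have hl : 0 < Real.log X := Real.log_pos hX
    simp only [Function.comp_apply, Fintype.card_fin]
    have h6 : (Real.log X ^ ((r : ℝ) / 2)) ^ 2 = Real.log X ^ r := by
      rw [← Real.rpow_natCast, ← Real.rpow_mul hl.le, ← Real.rpow_natCast]
      congr 1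
      push_cast
      ring
    rw [div_pow, h6]
    unfold pointsUpTo
    simp only [ht_eq]
  have hNpos : ∀ᶠ X : ℝ in atTop, (0 : ℝ) < (pointsUpTo a b X : ℝ) ^ 2 := by
    filter_upwards [eventually_ge_atTop 1] with X hX
    have h1 : Finite {P : Pts a b // ht P ≤ Real.log X} := (hfin _).to_subtype
    have h2 : Nonempty {P : Pts a b // ht P ≤ Real.log X} :=
      ⟨⟨.zero, Real.log_nonneg hX⟩⟩
    have h3 : 0 < pointsUpTo a b X := Nat.card_pos
    have h4 : (0 : ℝ) < pointsUpTo a b X := by exact_mod_cast h3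
    positivity
  refine ⟨hreg, fun B hB => ?_⟩
  have hA : 0 < B * regulator g / tors a b ^ 2 := by positivity
  have hκA : κ * (B * regulator g / tors a b ^ 2) = ballVol r ^ 2 * B := by
    rw [hκ]
    field_simp
  have hiff : ∀ k : ℝ,
      Tendsto (fun X : ℝ => (pointsUpTo a b X : ℝ) ^ 2 * rieszProduct a b k X) atTop
        (𝓝 (ballVol r ^ 2 * B * Real.exp (r * psi (k + 1)))) ↔
      Tendsto (fun X : ℝ => rieszProduct a b k X * Real.log X ^ r) atTop
        (𝓝 (B * regulator g / tors a b ^ 2 * Real.exp (r * psi (k + 1)))) := by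
    intro k
    constructor
    · intro h
      have h1 := h.div hN hκ0.ne'
      have h2 : ballVol r ^ 2 * B * Real.exp (r * psi (k + 1)) / κ =
          B * regulator g / tors a b ^ 2 * Real.exp (r * psi (k + 1)) := by
        rw [← hκA]
        field_simp
      rw [h2] at h1
      refine h1.congr' ?_
      filter_upwards [hNpos, eventually_gt_atTop 1] with X hX hX1
      have hl : 0 < Real.log X := Real.log_pos hX1
      have hlr : 0 < Real.log X ^ r := pow_pos hl _
      simp only [Pi.div_apply]
      generalize (pointsUpTo a b X : ℝ) ^ 2 = n at hX ⊢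
      field_simp
    · intro h
      have h1 := hN.mul h
      have h2 : κ * (B * regulator g / tors a b ^ 2 * Real.exp (r * psi (k + 1))) =
          ballVol r ^ 2 * B * Real.exp (r * psi (k + 1)) := by
        rw [← mul_assoc, hκA]
      rw [h2] at h1
      refine h1.congr' ?_
      filter_upwards [eventually_gt_atTop 1] with X hX1
      have hl : 0 < Real.log X := Real.log_pos hX1
      have hlr : 0 < Real.log X ^ r := pow_pos hl _
      field_simp
  simp only [hiff]
  exact product_tfae a b r hA

end Pool.Agent.Results.MP_9ab903_nt.RieszLimitFormula
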